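import Pool.Agent.W788.NW.Stm

/-!
# Project NW: exponential weights on graphs with subexponential growth
-/

open Finset Filter Topology Pool.Agent.W788.NV Pool.Agent.W788.NW

namespace Pool.Agent.W551.NW

/-- the bounding sequence -/
noncomputable def bs (c0 α η : ℝ) (r : ℕ) : ℝ :=
  if r = 0 then 1 else c0 * Real.exp ((r : ℝ) ^ (1 - α)) * ((1 + η) ^ r)⁻¹

theorem bs_nonneg (c0 α η : ℝ) (h0 : 0 < c0) (hη : 0 < η) (r : ℕ) : 0 ≤ bs c0 α η r := by
  unfold bs
  split_ifs
  · norm_num
  · positivity

theorem bs_summable (c0 α η : ℝ) (h0 : 0 < c0) (hα : 0 < α) (hη : 0 < η) :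
    Summable (bs c0 α η) := by
  have hL : 0 < Real.log (1 + η) := Real.log_pos (by linarith)
  have hg : Summable (fun r : ℕ => c0 * (Real.exp (-(Real.log (1 + η) / 2))) ^ r) := by
    apply Summable.mul_left
    apply summable_geometric_of_lt_one (Real.exp_pos _).le
    rw [Real.exp_lt_one_iff]
    linarith
  refine Summable.of_norm_bounded_eventually_nat hg ?_
  have ht : Tendsto (fun r : ℕ => (r : ℝ) ^ (-α)) atTop (𝓝 0) :=
    (tendsto_rpow_neg_atTop hα).comp tendsto_natCast_atTop_atTop
  have he : ∀ᶠ r : ℕ in atTop, (r : ℝ) ^ (-α) < Real.log (1 + η) / 2 :=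
    ht.eventually (gt_mem_nhds (by linarith))
  filter_upwards [he, eventually_ge_atTop 1] with r hr h1
  have hr0 : (0 : ℝ) < r := by exact_mod_cast h1
  have h2 : (r : ℝ) ^ (1 - α) ≤ r * (Real.log (1 + η) / 2) := by
    have : (r : ℝ) ^ (1 - α) = r * (r : ℝ) ^ (-α) := by
      rw [sub_eq_add_neg, Real.rpow_add hr0, Real.rpow_one]
    rw [this]
    exact mul_le_mul_of_nonneg_left hr.le hr0.le
  rw [Real.norm_of_nonneg (bs_nonneg c0 α η h0 hη r)]
  unfold bs
  rw [if_neg (by omega)]
  have h3 : ((1 + η) ^ r)⁻¹ = Real.exp (-(r * Real.log (1 + η))) := by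
    rw [Real.exp_neg, mul_comm, Real.exp_mul, Real.exp_log (by linarith), Real.rpow_natCast]
  have h4 : (Real.exp (-(Real.log (1 + η) / 2))) ^ r =
      Real.exp (r * (Real.log (1 + η) / 2)) * Real.exp (-(r * Real.log (1 + η))) := by
    rw [← Real.exp_nat_mul, ← Real.exp_add]
    congr 1
    ring
  rw [h3, h4, mul_assoc]
  gcongr

theorem sub_ : S_SUB := by
  intro c0 α η h0 hα hα1 hη
  have hs := bs_summable c0 α η h0 hα hη
  have hnn := bs_nonneg c0 α η h0 hη
  refine ⟨∑' r, bs c0 α η r, max 1 ⌈c0 * Real.exp 1⌉₊, ?_, le_max_left _ _, ?_⟩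
  · have h1 : bs c0 α η 0 ≤ ∑' r, bs c0 α η r := hs.le_tsum 0 (fun r _ => hnn r)
    have h2 : bs c0 α η 0 = 1 := by simp [bs]
    rwa [h2] at h1
  intro V _ G hG hb
  classical
  refine ⟨?_, ?_⟩
  · refine ⟨hη.le, ?_, ?_, ?_, ?_, ?_⟩
    · intro j
      simp
    · intro j y
      exact one_le_pow₀ (by linarith)
    · intro j y
      show (1 + η) ^ (G.dist j y) = (1 + η) ^ (G.dist y j)
      rw [SimpleGraph.dist_comm]
    · intro j y y' hy
      have h1 : G.dist j y' ≤ G.dist j y + 1 := by
        have := hG.dist_triangle (u := j) (v := y) (w := y')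
        rw [SimpleGraph.dist_eq_one_iff_adj.mpr hy] at this
        exact this
      show (1 + η) ^ (G.dist j y') ≤ (1 + η) * (1 + η) ^ (G.dist j y)
      calc (1 + η) ^ (G.dist j y') ≤ (1 + η) ^ (G.dist j y + 1) :=
            pow_le_pow_right₀ (by linarith) h1
        _ = (1 + η) * (1 + η) ^ (G.dist j y) := by ring
    · intro j
      show ∑ y, ((1 + η) ^ (G.dist j y))⁻¹ ≤ ∑' r, bs c0 α η r
      have h1 : ∑ y, ((1 + η) ^ (G.dist j y))⁻¹ =
          ∑ r ∈ (univ : Finset V).image (fun y => G.dist j y),
            ∑ y ∈ (univ : Finset V) with G.dist j y = r, ((1 + η) ^ (G.dist j y))⁻¹ := by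
        rw [Finset.sum_fiberwise_of_maps_to]
        intro y _
        exact mem_image_of_mem _ (mem_univ y)
      rw [h1]
      refine le_trans ?_ (hs.sum_le_tsum ((univ : Finset V).image (fun y => G.dist j y))
        (fun r _ => hnn r))
      apply Finset.sum_le_sum
      intro r _
      have h2 : ∑ y ∈ (univ : Finset V) with G.dist j y = r, ((1 + η) ^ (G.dist j y))⁻¹ =
          (((univ : Finset V).filter (fun y => G.dist j y = r)).card : ℝ) * ((1 + η) ^ r)⁻¹ := by
        rw [← nsmul_eq_mul, ← Finset.sum_const]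
        apply Finset.sum_congr rfl
        intro y hy
        rw [(mem_filter.mp hy).2]
      rw [h2]
      unfold bs
      split_ifs with hr
      · subst hr
        have h3 : (univ : Finset V).filter (fun y => G.dist j y = 0) = {j} := by
          ext y
          simp only [mem_filter, mem_univ, true_and, mem_singleton]
          rw [hG.dist_eq_zero_iff]
          exact eq_comm
        rw [h3]
        simp
      · have h3 : (((univ : Finset V).filter (fun y => G.dist j y = r)).card : ℝ) ≤
            c0 * Real.exp ((r : ℝ) ^ (1 - α)) := by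
          refine le_trans ?_ (hb j r (by omega))
          have h4 : ((univ : Finset V).filter (fun y => G.dist j y = r)).card ≤
              ({w : V | G.dist j w ≤ r} : Set V).ncard := by
            rw [← Set.ncard_coe_finset]
            apply Set.ncard_le_ncard
            · intro w hw
              simp only [coe_filter, mem_univ, true_and, Set.mem_setOf_eq] at hw
              exact hw.le
            · exact Set.toFinite _
          exact_mod_cast h4
        exact mul_le_mul_of_nonneg_right h3 (by positivity)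
  · intro v
    have h1 := hb v 1 le_rfl
    have h2 : dg G v ≤ ({w : V | G.dist v w ≤ 1} : Set V).ncard := by
      unfold dg
      rw [← Set.ncard_coe_finset]
      apply Set.ncard_le_ncard
      · intro w hw
        simp only [coe_filter, mem_univ, true_and, Set.mem_setOf_eq] at hw
        exact (SimpleGraph.dist_eq_one_iff_adj.mpr hw).le
      · exact Set.toFinite _
    have h3 : ((dg G v : ℕ) : ℝ) ≤ c0 * Real.exp 1 := by
      have h4 : ((dg G v : ℕ) : ℝ) ≤ (({w : V | G.dist v w ≤ 1} : Set V).ncard : ℝ) := by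
        exact_mod_cast h2
      refine h4.trans ?_
      simpa using h1
    have h5 : ((dg G v : ℕ) : ℝ) ≤ (⌈c0 * Real.exp 1⌉₊ : ℝ) := h3.trans (Nat.le_ceil _)
    exact (Nat.cast_le.mp h5).trans (le_max_right _ _)

end Pool.Agent.W551.NW
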